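import Pool.Agent.Lib_helper33.ASM.Stmts

/-!
# Module WT: exponential tail of the free volume
-/

set_option autoImplicit false
set_option linter.unusedSectionVars false
set_option linter.unusedVariables false

open scoped BigOperators

namespace Pool.Agent.Lib_helper44.ASM

open Pool.Agent.Lib_helper33.ASM

variable {d : ℕ}

lemma exists_scale {r D : ℝ} (m : ℕ) (h1 : r ≤ D) (h2 : D < 2 ^ m * r) :
    ∃ k ∈ Finset.range m, 2 ^ k * r ≤ D ∧ D < 2 ^ (k + 1) * r := by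
  induction m with
  | zero => simp at h2; exact absurd h2 (not_lt.2 h1)
  | succ m ih =>
    rcases lt_or_ge D (2 ^ m * r) with h | h
    · obtain ⟨k, hk, hk2⟩ := ih h
      exact ⟨k, Finset.mem_range.2 ((Finset.mem_range.1 hk).trans (Nat.lt_succ_self m)), hk2⟩
    · exact ⟨m, Finset.self_mem_range_succ m, h, h2⟩

/-- the number of blue points near `c` which are matched between `r` and `2 ^ m * r` -/
lemma blue_card_le {ι : Type*} [Fintype ι] {x : ι → Sp d} (hx : Gen x) {ω : Cfg ι}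
    {r : ℝ} (hr : 0 < r) (c : Sp d) (m : ℕ) (B : Finset ι)
    (hB : ∀ i ∈ B, dist (x i) c ≤ 3 * r ∧ ω i = some false ∧ ¬ Bf x ω r i ∧
      Bf x ω (2 ^ m * r) i) :
    (B.card : ℝ) ≤ m * 11 ^ d := by
  classical
  -- the partner
  have hpart : ∀ i ∈ B, ∃ j, mt x ω i j ∧ r ≤ dist (x i) (x j) ∧
      dist (x i) (x j) < 2 ^ m * r := by
    intro i hi
    obtain ⟨-, -, h3, j, hj, hj2⟩ := hB i hi
    refine ⟨j, hj, ?_, hj2⟩
    by_contra hlt
    push Not at hlt
    exact h3 ⟨j, hj, hlt⟩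
  choose! π hπ using hpart
  have hcov : B ⊆ (Finset.range m).biUnion (fun k => B.filter fun i =>
      2 ^ k * r ≤ dist (x i) (x (π i)) ∧ dist (x i) (x (π i)) < 2 ^ (k + 1) * r) := by
    intro i hi
    obtain ⟨k, hk, hk2⟩ := exists_scale m (hπ i hi).2.1 (hπ i hi).2.2
    exact Finset.mem_biUnion.2 ⟨k, hk, Finset.mem_filter.2 ⟨hi, hk2⟩⟩
  have hone : ∀ k ∈ Finset.range m, ((B.filter fun i =>
      2 ^ k * r ≤ dist (x i) (x (π i)) ∧ dist (x i) (x (π i)) < 2 ^ (k + 1) * r).card : ℝ) ≤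
        11 ^ d := by
    intro k _
    have hk1 : (1 : ℝ) ≤ 2 ^ k := one_le_pow₀ (by norm_num)
    have hkr : 0 < 2 ^ k * r := by positivity
    have hred : ∀ i ∈ B, ω (π i) = some true := by
      intro i hi
      have hok := mt_ok (hπ i hi).1
      rcases hok.2.2.2 with h | h
      · rw [(hB i hi).2.1] at h
        exact absurd h (by simp)
      · exact h
    have hun : ∀ i ∈ B, 2 ^ k * r ≤ dist (x i) (x (π i)) → Un x ω (2 ^ k * r) (π i) := by
      intro i hi hd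
      refine ⟨by rw [hred i hi]; simp, ?_⟩
      rintro ⟨l, hl, hl2⟩
      have hil : i = l := mt_unique hx (mt_symm (hπ i hi).1) hl
      rw [← hil, dist_comm] at hl2
      exact absurd hl2 (not_lt.2 hd)
    have := packing (B.filter fun i =>
      2 ^ k * r ≤ dist (x i) (x (π i)) ∧ dist (x i) (x (π i)) < 2 ^ (k + 1) * r)
      (fun i => x (π i)) c (R := 5 * (2 ^ k * r)) hkr (by positivity) ?_ ?_
    · refine this.trans (le_of_eq ?_)
      congr 1
      field_simp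
      norm_num
    · intro s hs
      obtain ⟨hs, hs1, hs2⟩ := Finset.mem_filter.1 hs
      have h3 := (hB s hs).1
      have h4 : dist (x (π s)) c ≤ dist (x s) (x (π s)) + dist (x s) c := by
        rw [dist_comm (x s) (x (π s))]
        exact dist_triangle _ _ _
      have h5 : r ≤ 2 ^ k * r := by nlinarith
      have h6 : (2 : ℝ) ^ (k + 1) * r = 2 * (2 ^ k * r) := by ring
      show dist (x (π s)) c ≤ 5 * (2 ^ k * r)
      linarith
    · intro s hs s' hs' hne
      obtain ⟨hs, hs1, -⟩ := Finset.mem_filter.1 hs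
      obtain ⟨hs', hs1', -⟩ := Finset.mem_filter.1 hs'
      refine Un.dist_le (hun s hs hs1) (hun s' hs' hs1') ?_
      refine ⟨?_, by rw [hred s hs]; simp, by rw [hred s' hs']; simp, Or.inl (hred s hs)⟩
      intro heq
      apply hne
      exact mt_unique hx (mt_symm (hπ s hs).1) (heq ▸ mt_symm (hπ s' hs').1)
  calc (B.card : ℝ) ≤ (((Finset.range m).biUnion (fun k => B.filter fun i =>
      2 ^ k * r ≤ dist (x i) (x (π i)) ∧
        dist (x i) (x (π i)) < 2 ^ (k + 1) * r)).card : ℝ) := by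
        exact_mod_cast Finset.card_le_card hcov
    _ ≤ ∑ k ∈ Finset.range m, ((B.filter fun i =>
      2 ^ k * r ≤ dist (x i) (x (π i)) ∧
        dist (x i) (x (π i)) < 2 ^ (k + 1) * r).card : ℝ) := by
        exact_mod_cast Finset.card_biUnion_le
    _ ≤ ∑ _k ∈ Finset.range m, (11 : ℝ) ^ d := Finset.sum_le_sum hone
    _ = m * 11 ^ d := by simp

/-- the free volume near `c` is larger than `L` -/
def BigF {ι : Type} [Fintype ι] (x : ι → Sp d) (a : ℝ) (c : Sp d) (r L : ℝ) (ω : Cfg ι) : Prop :=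
  L < a * cnt fun s => dist (x s) c ≤ 3 * r ∧ FM x ω r s

/-- no unmatched red point near `c` -/
def NoRed {ι : Type} (x : ι → Sp d) (c : Sp d) (r : ℝ) (ω : Cfg ι) : Prop :=
  ∀ s, dist (x s) c ≤ 4 * r → ω s = some true → Bf x ω r s

section steps

variable {ι : Type} [Fintype ι] [DecidableEq ι] {x : ι → Sp d} {a p r : ℝ}

lemma bigF_congr {ω ω' : Cfg ι} {c : Sp d} {L : ℝ}
    (h : ∀ z, FM x ω r z ↔ FM x ω' r z) : BigF x a c r L ω ↔ BigF x a c r L ω' := by
  unfold BigF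
  simp only [h]

lemma step_a (hx : Gen x) (h : Par a p) (hr : 0 < r) (c : Sp d) (L : ℝ) :
    pr a p (BigF x a c r L) ≤ (1 + p / (1 - p)) ^ (9 ^ d) *
      pr a p (fun ω => BigF x a c r L ω ∧ NoRed x c r ω) := by
  classical
  refine recolour_cost h (BigF x a c r L) (fun ω => BigF x a c r L ω ∧ NoRed x c r ω)
    (fun ω => Finset.univ.filter fun s => dist (x s) c ≤ 4 * r ∧ ω s = some true ∧ Un x ω r s)
    (fun ω => Finset.univ.filter fun s => dist (x s) c ≤ 4 * r ∧ Un x ω r s ∧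
      ∀ s', s' ≠ s → Un x ω r s' → r ≤ dist (x s) (x s')) (9 ^ d) ?_
  intro ω hω
  set R : Finset ι := Finset.univ.filter fun s => dist (x s) c ≤ 4 * r ∧ ω s = some true ∧
    Un x ω r s with hR
  have hmem : ∀ s, s ∈ (R : Set ι) ↔ dist (x s) c ≤ 4 * r ∧ ω s = some true ∧ Un x ω r s := by
    intro s
    simp [hR]
  have hsame : Same x (rcb ω (R : Set ι)) ω r :=
    same_rcb (fun s hs => ⟨((hmem s).1 hs).2.1, ((hmem s).1 hs).2.2⟩)
  have hbf : ∀ s, Bf x (rcb ω (R : Set ι)) r s ↔ Bf x ω r s := fun s => bf_congr hsame s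
  have hcol : ∀ y, y ∉ (R : Set ι) → rcb ω (R : Set ι) y = ω y := by
    intro y hy
    simp only [rcb, if_neg hy]
  have hcolR : ∀ y, y ∈ (R : Set ι) → rcb ω (R : Set ι) y = some false := by
    intro y hy
    simp only [rcb, if_pos hy]
  have hbfR : ∀ y, Bf x (rcb ω (R : Set ι)) r y → y ∉ (R : Set ι) := by
    intro y hy hyR
    exact ((hmem y).1 hyR).2.2.2 ((hbf y).1 hy)
  have hfm : ∀ z, FM x (rcb ω (R : Set ι)) r z ↔ FM x ω r z :=
    fun z => fm_congr hsame (fun y hy => hcol y (hbfR y hy)) z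
  have hocc : ∀ y, rcb ω (R : Set ι) y ≠ none ↔ ω y ≠ none := by
    intro y
    by_cases hy : y ∈ (R : Set ι)
    · rw [hcolR y hy, ((hmem y).1 hy).2.1]
      simp
    · rw [hcol y hy]
  have hun : ∀ y, Un x (rcb ω (R : Set ι)) r y ↔ Un x ω r y := by
    intro y
    unfold Un
    rw [hocc, hbf]
  refine ⟨⟨(bigF_congr hfm).2 hω, ?_⟩, ?_, ?_, ?_⟩
  · intro s hs hcs
    have hsR : s ∉ (R : Set ι) := by
      intro hsR
      rw [hcolR s hsR] at hcs
      exact absurd hcs (by simp)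
    rw [hcol s hsR] at hcs
    rw [hbf]
    by_contra hb
    exact hsR ((hmem s).2 ⟨hs, hcs, by rw [hcs]; simp, hb⟩)
  · intro s hs
    have hs' := (hmem s).1 hs
    refine Finset.mem_filter.2 ⟨Finset.mem_univ _, hs'.1, (hun s).2 hs'.2.2, ?_⟩
    intro s' hne hs''
    refine Un.dist_le hs'.2.2 ((hun s').1 hs'') ⟨hne.symm, hs'.2.2.1, ((hun s').1 hs'').1,
      Or.inl hs'.2.1⟩
  · have hp := packing (Finset.univ.filter fun s => dist (x s) c ≤ 4 * r ∧
      Un x (rcb ω (R : Set ι)) r s ∧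
      ∀ s', s' ≠ s → Un x (rcb ω (R : Set ι)) r s' → r ≤ dist (x s) (x s')) x c
      (R := 4 * r) hr (by positivity) ?_ ?_
    · have h9 : (2 * (4 * r) / r + 1 : ℝ) ^ d = ((9 ^ d : ℕ) : ℝ) := by
        push_cast
        congr 1
        field_simp
        norm_num
      rw [h9] at hp
      exact_mod_cast hp
    · intro s hs
      exact (Finset.mem_filter.1 hs).2.1
    · intro s hs s' hs' hne
      exact (Finset.mem_filter.1 hs).2.2.2 s' hne.symm (Finset.mem_filter.1 hs').2.2.1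
  · intro s hs
    exact ((hmem s).1 hs).2.1

lemma pr_eq_sum_fiber (A : Cfg ι → Prop) (g : Cfg ι → Finset ι) :
    pr a p A = ∑ F : Finset ι, pr a p (fun ω => A ω ∧ g ω = F) := by
  classical
  unfold pr
  rw [← ex_sum]
  congr 1
  funext ω
  simp only [ind_and]
  rw [← Finset.mul_sum]
  have : ∑ F : Finset ι, ind (g ω = F) = 1 := by
    rw [Finset.sum_eq_single (g ω) (fun F _ hne => ind_false (Ne.symm hne))
      (fun hne => absurd (Finset.mem_univ _) hne), ind_true rfl]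
  rw [this, mul_one]

lemma step_b (hx : Gen x) (h : Par a p) (hr : 0 < r) (c : Sp d) (L : ℝ)
    (hL : 8 ≤ (1 - p) * L) :
    pr a p (fun ω => BigF x a c r L ω ∧ NoRed x c r ω) ≤
      2 * pr a p (fun ω => (1 - p) * L / 2 < cnt fun i => dist (x i) c ≤ 3 * r ∧ FM x ω r i ∧
        ω i = some false) := by
  classical
  have hq : 0 < 1 - p := by linarith [h.p_lt]
  set g : Cfg ι → Finset ι := fun ω => Finset.univ.filter fun s => dist (x s) c ≤ 3 * r ∧
    FM x ω r s with hg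
  have hgm : ∀ ω s, s ∈ g ω ↔ dist (x s) c ≤ 3 * r ∧ FM x ω r s := by
    intro ω s
    simp [hg]
  have hcnt : ∀ ω, (cnt fun s => dist (x s) c ≤ 3 * r ∧ FM x ω r s) = ((g ω).card : ℝ) := by
    intro ω
    simp only [cnt, hg]
    congr
  rw [pr_eq_sum_fiber (fun ω => BigF x a c r L ω ∧ NoRed x c r ω) g,
    pr_eq_sum_fiber (fun ω => (1 - p) * L / 2 < cnt fun i => dist (x i) c ≤ 3 * r ∧
      FM x ω r i ∧ ω i = some false) g, Finset.mul_sum]
  refine Finset.sum_le_sum fun F _ => ?_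
  by_cases hF : L < a * F.card
  · have key := blue_cheb h F (fun ω => (BigF x a c r L ω ∧ NoRed x c r ω) ∧ g ω = F) ?_ ?_ ?_
    · refine key.trans (mul_le_mul_of_nonneg_left (pr_mono h ?_) (by norm_num))
      rintro ω ⟨⟨⟨h1, h2⟩, h3⟩, h4⟩
      refine ⟨?_, h3⟩
      refine lt_of_lt_of_le ?_ (h4.trans (cnt_mono ?_))
      · have : (1 - p) * L < (1 - p) * (a * F.card) := mul_lt_mul_of_pos_left hF hq
        nlinarith
      · rintro i ⟨hi, hi2⟩
        rw [← h3, hgm] at hi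
        exact ⟨hi.1, hi.2, hi2⟩
    · rintro ω ⟨⟨h1, h2⟩, h3⟩ i hi
      rw [← h3, hgm] at hi
      rcases hc : ω i with _ | b
      · exact Or.inl rfl
      · cases b
        · exact Or.inr rfl
        · exact absurd (h2 i (by linarith [hi.1]) hc) hi.2.1
    · rintro ω ω' ⟨⟨h1, h2⟩, h3⟩ hoff hon
      have hiF : ∀ i ∈ F, dist (x i) c ≤ 3 * r ∧ FM x ω r i := by
        intro i hi
        rw [← h3, hgm] at hi
        exact hi
      have hon' : ∀ i ∈ F, ω i = none ∨ ω i = some false := by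
        intro i hi
        have hi' := hiF i hi
        rcases hc : ω i with _ | b
        · exact Or.inl rfl
        · cases b
          · exact Or.inr rfl
          · exact absurd (h2 i (by linarith [hi'.1]) hc) hi'.2.1
      have hsame : Same x ω' ω r := by
        refine same_change_blue hx (S := (F : Set ι)) (fun i hi => (hoff i hi).symm) hon' hon
          (fun i hi => (hiF i hi).2) ?_
        intro i hi y hy hd
        refine h2 y ?_ hy
        have h5 := (hiF i hi).1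
        have h6 : dist (x y) c ≤ dist (x i) (x y) + dist (x i) c := by
          rw [dist_comm (x i) (x y)]
          exact dist_triangle _ _ _
        linarith
      have hbf : ∀ s, Bf x ω' r s ↔ Bf x ω r s := fun s => bf_congr hsame s
      have hfm : ∀ z, FM x ω' r z ↔ FM x ω r z := by
        refine fun z => fm_congr hsame (fun y hy => ?_) z
        refine (hoff y fun hyF => ?_).symm
        exact (hiF y hyF).2.1 ((hbf y).1 hy)
      refine ⟨⟨(bigF_congr hfm).2 h1, ?_⟩, ?_⟩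
      · intro s hs hcs
        have hsF : s ∉ F := by
          intro hsF
          rcases hon s hsF with h7 | h7 <;> rw [h7] at hcs <;> simp at hcs
        rw [← hoff s hsF] at hcs
        exact (hbf s).2 (h2 s hs hcs)
      · rw [← h3]
        ext s
        rw [hgm, hgm, hfm]
    · have : (1 - p) * L ≤ (1 - p) * (a * F.card) := mul_le_mul_of_nonneg_left hF.le hq.le
      nlinarith
  · have h0 : pr a p (fun ω => (BigF x a c r L ω ∧ NoRed x c r ω) ∧ g ω = F) ≤ 0 := by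
      have : ∀ ω, ¬ ((BigF x a c r L ω ∧ NoRed x c r ω) ∧ g ω = F) := by
        rintro ω ⟨⟨h1, -⟩, h3⟩
        unfold BigF at h1
        rw [hcnt, h3] at h1
        exact hF h1
      calc pr a p (fun ω => (BigF x a c r L ω ∧ NoRed x c r ω) ∧ g ω = F) ≤
          ex a p (fun _ : Cfg ι => (0 : ℝ)) := ex_mono h fun ω => by rw [ind_false (this ω)]
        _ = 0 := ex_const a p 0
    exact h0.trans (mul_nonneg (by norm_num) (pr_nonneg h _))

lemma step_c (hx : Gen x) (hr : 0 < r) (c : Sp d) (m : ℕ) (K : ℝ) (hK : m * 11 ^ d ≤ K)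
    (ω : Cfg ι) (hω : K < cnt fun i => dist (x i) c ≤ 3 * r ∧ FM x ω r i ∧ ω i = some false) :
    ∃ i, dist (x i) c ≤ 3 * r ∧ ω i = some false ∧ Un x ω (2 ^ m * r) i := by
  classical
  by_contra hcon
  push Not at hcon
  have hb := blue_card_le hx hr c m (ω := ω)
    (Finset.univ.filter fun i => dist (x i) c ≤ 3 * r ∧ FM x ω r i ∧ ω i = some false) ?_
  · have : (cnt fun i => dist (x i) c ≤ 3 * r ∧ FM x ω r i ∧ ω i = some false) =
      ((Finset.univ.filter fun i => dist (x i) c ≤ 3 * r ∧ FM x ω r i ∧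
        ω i = some false).card : ℝ) := by
      unfold cnt
      congr
    rw [this] at hω
    linarith
  · intro i hi
    obtain ⟨h1, h2, h3⟩ := (Finset.mem_filter.1 hi).2
    refine ⟨h1, h3, h2.1, ?_⟩
    by_contra h4
    exact hcon i h1 h3 ⟨by rw [h3]; simp, h4⟩

end steps

/-- Module WT. -/
theorem stmtWT {p : ℝ} (hp0 : 0 < p) (hp1 : p < 1) (hUB : StmtUB d p) : StmtWT d p := by
  classical
  obtain ⟨C₀, hC₀, hub⟩ := hUB
  have hq : 0 < 1 - p := by linarith
  have hcost : 0 < (1 + p / (1 - p)) ^ (9 ^ d) := by positivity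
  refine ⟨8 / (1 - p) + 2 * 11 ^ d / (1 - p) + (1 + p / (1 - p)) ^ (9 ^ d) * 4 * 8 ^ d * C₀,
    by positivity, fun I => ?_⟩
  set C : ℝ := 8 / (1 - p) + 2 * 11 ^ d / (1 - p) + (1 + p / (1 - p)) ^ (9 ^ d) * 4 * 8 ^ d * C₀
    with hC
  have hC1 : 8 / (1 - p) ≤ C := by
    rw [hC]
    have : 0 ≤ 2 * 11 ^ d / (1 - p) + (1 + p / (1 - p)) ^ (9 ^ d) * 4 * 8 ^ d * C₀ := by
      positivity
    linarith
  have hC2 : 2 * 11 ^ d / (1 - p) ≤ C := by
    rw [hC]
    have : 0 ≤ 8 / (1 - p) + (1 + p / (1 - p)) ^ (9 ^ d) * 4 * 8 ^ d * C₀ := by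
      positivity
    linarith
  have hC3 : (1 + p / (1 - p)) ^ (9 ^ d) * 4 * 8 ^ d * C₀ ≤ C := by
    rw [hC]
    have : 0 ≤ 8 / (1 - p) + 2 * 11 ^ d / (1 - p) := by
      positivity
    linarith
  set I' : ℕ := 2 * I + 3 * 2 ^ I + 1 with hI'
  refine Ev.mono ((hub I').and (Ev.good p 0 0 one_pos)) ?_
  rintro 𝓜 ⟨h𝓜, hgood⟩ i hi m hm hm1 c hc
  have hpar : Par 𝓜.a p := hgood.par hp0 hp1
  have hr : (0 : ℝ) < 2 ^ i := by positivity
  have hm' : (1 : ℝ) ≤ m := by exact_mod_cast hm1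
  -- the blue density bound
  have hEB : ∀ j ∈ cubes c (3 * 2 ^ i), EB p 𝓜 j (2 ^ (i + m)) ≤
      2 * C₀ * (1 / 2) ^ (d * (i + m)) := by
    intro j hj
    have hjb : ∀ k, |j k| ≤ (I' : ℤ) := by
      intro k
      have hB : ‖c‖ + 3 * 2 ^ i + 1 ≤ (I' : ℝ) := by
        have h2 : (2 : ℝ) ^ i ≤ 2 ^ I := pow_le_pow_right₀ (by norm_num) hi
        have h3 : (0 : ℝ) ≤ I := Nat.cast_nonneg I
        rw [hI']
        push_cast
        linarith
      have := abs_le_of_mem_cubes hj hB k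
      exact_mod_cast this
    have h1 := ((h𝓜 (i + m) (by omega)).1 j hjb).2.1
    rw [EB_eq 𝓜 hpar]
    have h2 : (1 - p) / (1 - 𝓜.a) ≤ 2 := by
      have ha : 𝓜.a ≤ 1 / 2 := hpar.a_half
      rw [div_le_iff₀ (by linarith)]
      linarith
    have h3 : 0 ≤ C₀ * (1 / 2 : ℝ) ^ (d * (i + m)) := by positivity
    calc (1 - p) / (1 - 𝓜.a) * cs 𝓜 j (fun s => pr 𝓜.a p fun ω => FB 𝓜.x ω (2 ^ (i + m)) s)
        ≤ (1 - p) / (1 - 𝓜.a) * (C₀ * (1 / 2) ^ (d * (i + m))) := by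
          refine mul_le_mul_of_nonneg_left h1 (div_nonneg hq.le ?_)
          linarith [hpar.a_half]
      _ ≤ 2 * (C₀ * (1 / 2) ^ (d * (i + m))) := mul_le_mul_of_nonneg_right h2 h3
      _ = 2 * C₀ * (1 / 2) ^ (d * (i + m)) := by ring
  -- the last step
  have hlast : pr 𝓜.a p (fun ω => ∃ s, dist (𝓜.x s) c ≤ 3 * 2 ^ i ∧ ω s = some false ∧
      Un 𝓜.x ω (2 ^ m * 2 ^ i) s) ≤ 8 ^ d * (2 * C₀) * (1 / 2) ^ (d * m) := by
    have e1 : pr 𝓜.a p (fun ω => ∃ s, dist (𝓜.x s) c ≤ 3 * 2 ^ i ∧ ω s = some false ∧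
        Un 𝓜.x ω (2 ^ m * 2 ^ i) s) ≤
        ∑ j ∈ cubes c (3 * 2 ^ i), EB p 𝓜 j (2 ^ (i + m)) := by
      unfold EB
      rw [← ex_sum]
      refine ex_mono hpar fun ω => ?_
      refine (ind_exists_le_cnt _).trans ?_
      refine le_trans (cnt_mono ?_) (cnt_exists_le _ _)
      rintro s ⟨hs1, hs2, hs3⟩
      refine ⟨cb (𝓜.x s), mem_cubes hs1, rfl, hs2, ?_⟩
      rw [add_comm i m, pow_add]
      exact hs3
    have e2 : ((cubes c (3 * 2 ^ i)).card : ℝ) ≤ (8 * 2 ^ i) ^ d := by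
      refine (card_cubes c (by positivity)).trans ?_
      have h1 : (1 : ℝ) ≤ 2 ^ i := one_le_pow₀ (by norm_num)
      exact pow_le_pow_left₀ (by positivity) (by linarith) d
    calc pr 𝓜.a p (fun ω => ∃ s, dist (𝓜.x s) c ≤ 3 * 2 ^ i ∧ ω s = some false ∧
        Un 𝓜.x ω (2 ^ m * 2 ^ i) s) ≤ ∑ j ∈ cubes c (3 * 2 ^ i), EB p 𝓜 j (2 ^ (i + m)) := e1
      _ ≤ ∑ _j ∈ cubes c (3 * 2 ^ i), 2 * C₀ * (1 / 2) ^ (d * (i + m)) :=
          Finset.sum_le_sum hEB
      _ = (cubes c (3 * 2 ^ i)).card * (2 * C₀ * (1 / 2) ^ (d * (i + m))) := by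
          rw [Finset.sum_const, nsmul_eq_mul]
      _ ≤ (8 * 2 ^ i) ^ d * (2 * C₀ * (1 / 2) ^ (d * (i + m))) :=
          mul_le_mul_of_nonneg_right e2 (by positivity)
      _ = 8 ^ d * (2 * C₀) * (1 / 2) ^ (d * m) := by
          rw [mul_pow, Nat.mul_add, pow_add, ← pow_mul, mul_comm i d]
          have : (2 : ℝ) ^ (d * i) * (1 / 2) ^ (d * i) = 1 := by
            rw [← mul_pow]
            norm_num
          linear_combination (8 ^ d * (2 * C₀) * (1 / 2) ^ (d * m)) * this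
  have hLq : (1 - p) * (C * m) = ((1 - p) * C) * m := by ring
  have hqC1 : 8 ≤ (1 - p) * C := by
    rw [div_le_iff₀ hq] at hC1
    linarith
  have hqC2 : 2 * 11 ^ d ≤ (1 - p) * C := by
    rw [div_le_iff₀ hq] at hC2
    linarith
  have ha := step_a 𝓜.gen hpar hr c (C * m)
  have hb := step_b 𝓜.gen hpar hr c (C * m) (by rw [hLq]; nlinarith)
  have hc' : pr 𝓜.a p (fun ω => (1 - p) * (C * m) / 2 < cnt fun s =>
      dist (𝓜.x s) c ≤ 3 * 2 ^ i ∧ FM 𝓜.x ω (2 ^ i) s ∧ ω s = some false) ≤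
      pr 𝓜.a p (fun ω => ∃ s, dist (𝓜.x s) c ≤ 3 * 2 ^ i ∧ ω s = some false ∧
        Un 𝓜.x ω (2 ^ m * 2 ^ i) s) := by
    refine pr_mono hpar fun ω hω => step_c 𝓜.gen hr c m _ ?_ ω hω
    rw [hLq]
    have : (m : ℝ) * (2 * 11 ^ d) ≤ m * ((1 - p) * C) :=
      mul_le_mul_of_nonneg_left hqC2 (by positivity)
    linarith
  have hfin : pr 𝓜.a p (BigF 𝓜.x 𝓜.a c (2 ^ i) (C * m)) ≤ C * (1 / 2) ^ (d * m) := by
    calc pr 𝓜.a p (BigF 𝓜.x 𝓜.a c (2 ^ i) (C * m))
        ≤ (1 + p / (1 - p)) ^ (9 ^ d) * (2 * (8 ^ d * (2 * C₀) * (1 / 2) ^ (d * m))) := by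
          refine ha.trans (mul_le_mul_of_nonneg_left (hb.trans ?_) hcost.le)
          exact mul_le_mul_of_nonneg_left (hc'.trans hlast) (by norm_num)
      _ = ((1 + p / (1 - p)) ^ (9 ^ d) * 4 * 8 ^ d * C₀) * (1 / 2) ^ (d * m) := by ring
      _ ≤ C * (1 / 2) ^ (d * m) := mul_le_mul_of_nonneg_right hC3 (by positivity)
  exact hfin

end Pool.Agent.Lib_helper44.ASM
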